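import Pool.Agent.Lib.MP_4a593f_gt.Big.G3
import Pool.Agent.Lib.MP_4a593f_gt.Big.K2

/-!
Plane functional, part 1: the Fock space of `ℝ^(N+2)`, the plane `P` spanned by `e = e_0`,
`f = e_1`, and `U = ℝ^N` (basis vectors `e_(v+2)`).

`J : Fk N → Fk (N+2)` is the inclusion of the forms of `U`, `Jt` its adjoint. Every form is
`e ∧ f ∧ β + χ + e ∧ η₁ + f ∧ η₂` (`decomp`).
-/

set_option autoImplicit false

open scoped BigOperators

namespace HopfPF

open HopfBig Finset

variable {N : ℕ}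

/-- inclusion of the index sets -/
def up (s : Finset (Fin N)) : Finset (Fin (N + 2)) := s.map ((Fin.succEmb N).trans (Fin.succEmb (N + 1)))

/-- the index of a vector of `U` -/
abbrev sc (v : Fin N) : Fin (N + 2) := v.succ.succ

theorem mem_up {s : Finset (Fin N)} {v : Fin N} : sc v ∈ up s ↔ v ∈ s := by
  unfold up sc
  rw [Finset.mem_map]
  constructor
  · rintro ⟨a, ha, h⟩
    have : a = v := Fin.succ_injective _ (Fin.succ_injective _ h)
    rwa [this] at ha
  · intro h
    exact ⟨v, h, rfl⟩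

theorem zero_notMem_up (s : Finset (Fin N)) : (0 : Fin (N + 2)) ∉ up s := by
  unfold up
  rw [Finset.mem_map]
  rintro ⟨a, -, h⟩
  exact Fin.succ_ne_zero _ h

theorem one_notMem_up (s : Finset (Fin N)) : (1 : Fin (N + 2)) ∉ up s := by
  unfold up
  rw [Finset.mem_map]
  rintro ⟨a, -, h⟩
  have h1 : (a.succ.succ : Fin (N + 2)) = (0 : Fin (N + 1)).succ := h
  exact Fin.succ_ne_zero _ (Fin.succ_injective _ h1)

/-- the part of an index set in `U` -/
def dn (s : Finset (Fin (N + 2))) : Finset (Fin N) := univ.filter fun v => sc v ∈ s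

theorem mem_dn {s : Finset (Fin (N + 2))} {v : Fin N} : v ∈ dn s ↔ sc v ∈ s := by
  simp [dn]

theorem dn_up (s : Finset (Fin N)) : dn (up s) = s := by
  ext v
  rw [mem_dn, mem_up]

theorem up_dn {s : Finset (Fin (N + 2))} (h0 : (0 : Fin (N + 2)) ∉ s) (h1 : (1 : Fin (N + 2)) ∉ s) :
    up (dn s) = s := by
  ext a
  refine Fin.cases ?_ (fun b => ?_) a
  · exact ⟨fun h => absurd h (zero_notMem_up _), fun h => absurd h h0⟩
  · refine Fin.cases ?_ (fun v => ?_) b
    · exact ⟨fun h => absurd h (one_notMem_up _), fun h => absurd h h1⟩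
    · rw [mem_up, mem_dn]

theorem card_up (s : Finset (Fin N)) : (up s).card = s.card := by
  unfold up
  rw [Finset.card_map]

theorem sg_up (v : Fin N) (s : Finset (Fin N)) : sg (sc v) (up s) = sg v s := by
  unfold sg
  congr 1
  have h : (up s).filter (· < sc v) = up (s.filter (· < v)) := by
    ext a
    refine Fin.cases ?_ (fun b => ?_) a
    · simp [zero_notMem_up]
    · refine Fin.cases ?_ (fun w => ?_) b
      · have h1 := one_notMem_up s
        have h2 := one_notMem_up (s.filter (· < v))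
        constructor
        · intro h
          exact absurd (Finset.mem_filter.1 h).1 h1
        · intro h
          exact absurd h h2
      · rw [Finset.mem_filter, mem_up, mem_up, Finset.mem_filter]
        simp only [sc, Fin.succ_lt_succ_iff]
  rw [h, card_up]

/-- the inclusion of the forms of `U` -/
noncomputable def J : Fk N →ₗ[ℝ] Fk (N + 2) where
  toFun f := WithLp.toLp 2 fun s => if (0 : Fin (N + 2)) ∈ s ∨ (1 : Fin (N + 2)) ∈ s then 0 else f (dn s)
  map_add' f g := by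
    ext s; simp only [PiLp.add_apply]; split_ifs <;> ring
  map_smul' r f := by
    ext s; simp only [PiLp.smul_apply, RingHom.id_apply, smul_eq_mul]; split_ifs <;> ring

/-- its adjoint -/
noncomputable def Jt : Fk (N + 2) →ₗ[ℝ] Fk N where
  toFun f := WithLp.toLp 2 fun s => f (up s)
  map_add' f g := by
    ext s; simp only [PiLp.add_apply]
  map_smul' r f := by
    ext s; simp only [PiLp.smul_apply, RingHom.id_apply, smul_eq_mul]

theorem J_apply (f : Fk N) (s : Finset (Fin (N + 2))) :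
    J f s = if (0 : Fin (N + 2)) ∈ s ∨ (1 : Fin (N + 2)) ∈ s then 0 else f (dn s) := rfl

theorem Jt_apply (f : Fk (N + 2)) (s : Finset (Fin N)) : Jt f s = f (up s) := rfl

theorem Jt_J (f : Fk N) : Jt (J f) = f := by
  ext s
  rw [Jt_apply, J_apply, if_neg, dn_up]
  rintro (h | h)
  · exact zero_notMem_up _ h
  · exact one_notMem_up _ h

theorem an0_J (f : Fk N) : an 0 (J f) = 0 := by
  ext s
  rw [an_apply, J_apply]
  simp

theorem an1_J (f : Fk N) : an 1 (J f) = 0 := by
  ext s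
  rw [an_apply, J_apply]
  simp

theorem anU_J (v : Fin N) (f : Fk N) : an (sc v) (J f) = J (an v f) := by
  ext s
  rw [an_apply, J_apply, J_apply, an_apply]
  have h0 : (0 : Fin (N + 2)) ∈ insert (sc v) s ↔ (0 : Fin (N + 2)) ∈ s := by
    rw [Finset.mem_insert]
    exact ⟨fun h => h.resolve_left (Ne.symm (Fin.succ_ne_zero _)), Or.inr⟩
  have h1 : (1 : Fin (N + 2)) ∈ insert (sc v) s ↔ (1 : Fin (N + 2)) ∈ s := by
    rw [Finset.mem_insert]
    refine ⟨fun h => h.resolve_left ?_, Or.inr⟩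
    intro h
    have h2 : (0 : Fin (N + 1)).succ = v.succ.succ := h
    exact Fin.succ_ne_zero _ (Fin.succ_injective _ h2).symm
  simp only [h0, h1]
  by_cases hs : (0 : Fin (N + 2)) ∈ s ∨ (1 : Fin (N + 2)) ∈ s
  · rw [if_pos hs, if_pos hs]
    split_ifs <;> simp
  · rw [if_neg hs, if_neg hs]
    have hs' := not_or.1 hs
    have e := up_dn hs'.1 hs'.2
    have e2 : dn (insert (sc v) s) = insert v (dn s) := by
      ext w
      rw [mem_dn, Finset.mem_insert, Finset.mem_insert, mem_dn]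
      constructor
      · rintro (h | h)
        · exact Or.inl (Fin.succ_injective _ (Fin.succ_injective _ h))
        · exact Or.inr h
      · rintro (h | h)
        · exact Or.inl (by rw [h])
        · exact Or.inr h
    by_cases hv : sc v ∈ s
    · rw [if_pos hv, if_pos (mem_dn.2 hv)]
    · rw [if_neg hv, if_neg (fun h => hv (mem_dn.1 h)), e2]
      have e3 : sg (sc v) s = sg v (dn s) := by
        rw [← sg_up v (dn s), e]
      rw [e3]

theorem inner_J (f : Fk N) (g : Fk (N + 2)) : inner ℝ (J f) g = inner ℝ f (Jt g) := by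
  have h1 : ∀ {m : ℕ} (x y : Fk m), inner ℝ x y = ∑ s, x s * y s := by
    intro m x y
    rw [PiLp.inner_apply]
    refine Finset.sum_congr rfl fun s _ => ?_
    simp [mul_comm]
  rw [h1, h1]
  symm
  refine Finset.sum_of_injOn up ?_ (by simp) ?_ ?_
  · intro a _ b _ hab
    rw [← dn_up a, ← dn_up b, hab]
  · intro s _ hs
    rw [J_apply]
    by_cases h : (0 : Fin (N + 2)) ∈ s ∨ (1 : Fin (N + 2)) ∈ s
    · rw [if_pos h, zero_mul]
    · exfalso
      apply hs
      have h' := not_or.1 h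
      exact ⟨dn s, by simp, up_dn h'.1 h'.2⟩
  · intro s _
    rw [Jt_apply, J_apply, if_neg, dn_up]
    rintro (h | h)
    · exact zero_notMem_up _ h
    · exact one_notMem_up _ h

theorem inner_J_J (f g : Fk N) : inner ℝ (J f) (J g) = inner ℝ f g := by
  rw [inner_J, Jt_J]

theorem crU_J (v : Fin N) (f : Fk N) : cr (sc v) (J f) = J (cr v f) := by
  ext s
  rw [cr_apply, J_apply, J_apply, cr_apply]
  have h0 : (0 : Fin (N + 2)) ∈ s.erase (sc v) ↔ (0 : Fin (N + 2)) ∈ s := by
    rw [Finset.mem_erase]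
    exact ⟨fun h => h.2, fun h => ⟨(Fin.succ_ne_zero _).symm, h⟩⟩
  have h1 : (1 : Fin (N + 2)) ∈ s.erase (sc v) ↔ (1 : Fin (N + 2)) ∈ s := by
    rw [Finset.mem_erase]
    refine ⟨fun h => h.2, fun h => ⟨?_, h⟩⟩
    intro h
    have h2 : (0 : Fin (N + 1)).succ = v.succ.succ := h
    exact Fin.succ_ne_zero _ (Fin.succ_injective _ h2).symm
  simp only [h0, h1]
  by_cases hs : (0 : Fin (N + 2)) ∈ s ∨ (1 : Fin (N + 2)) ∈ s
  · rw [if_pos hs, if_pos hs]
    split_ifs <;> simp
  · rw [if_neg hs, if_neg hs]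
    have hs' := not_or.1 hs
    have e := up_dn hs'.1 hs'.2
    have e2 : dn (s.erase (sc v)) = (dn s).erase v := by
      ext w
      rw [mem_dn, Finset.mem_erase, Finset.mem_erase, mem_dn]
      constructor
      · rintro ⟨h, h'⟩
        exact ⟨fun hh => h (by rw [hh]), h'⟩
      · rintro ⟨h, h'⟩
        exact ⟨fun hh => h (Fin.succ_injective _ (Fin.succ_injective _ hh)), h'⟩
    by_cases hv : sc v ∈ s
    · rw [if_pos hv, if_pos (mem_dn.2 hv), e2]
      have e3 : sg (sc v) s = sg v (dn s) := by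
        rw [← sg_up v (dn s), e]
      rw [e3]
    · rw [if_neg hv, if_neg (fun h => hv (mem_dn.1 h))]

theorem J_Jt {g : Fk (N + 2)} (h0 : an 0 g = 0) (h1 : an 1 g = 0) : J (Jt g) = g := by
  have key : ∀ (a : Fin (N + 2)), an a g = 0 → ∀ s : Finset (Fin (N + 2)), a ∈ s → g s = 0 := by
    intro a ha s hs
    have e := congrArg (fun x : Fk (N + 2) => x (s.erase a)) ha
    simp only [an_apply, Finset.notMem_erase, if_false, Finset.insert_erase hs] at e
    have h2 : sg a (s.erase a) * g s = 0 := by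
      rw [e]
      rfl
    have h3 : sg a (s.erase a) ≠ 0 := by
      intro h
      have := sg_sq a (s.erase a)
      rw [h] at this
      norm_num at this
    exact (mul_eq_zero.1 h2).resolve_left h3
  ext s
  rw [J_apply, Jt_apply]
  by_cases hs : (0 : Fin (N + 2)) ∈ s ∨ (1 : Fin (N + 2)) ∈ s
  · rw [if_pos hs]
    rcases hs with hs | hs
    · exact (key 0 h0 s hs).symm
    · exact (key 1 h1 s hs).symm
  · rw [if_neg hs]
    have hs' := not_or.1 hs
    rw [up_dn hs'.1 hs'.2]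

theorem Jt_cr0 (g : Fk (N + 2)) : Jt (cr 0 g) = 0 := by
  ext s
  rw [Jt_apply, cr_apply, if_neg (zero_notMem_up s)]
  rfl

theorem Jt_cr1 (g : Fk (N + 2)) : Jt (cr 1 g) = 0 := by
  ext s
  rw [Jt_apply, cr_apply, if_neg (one_notMem_up s)]
  rfl

theorem Jt_anU (v : Fin N) (g : Fk (N + 2)) : Jt (an (sc v) g) = an v (Jt g) := by
  refine ext_inner_left ℝ fun x => ?_
  rw [← inner_J, ← inner_cr, crU_J, inner_J, inner_cr]

theorem Jt_crU (v : Fin N) (g : Fk (N + 2)) : Jt (cr (sc v) g) = cr v (Jt g) := by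
  refine ext_inner_left ℝ fun x => ?_
  rw [← inner_J, ← inner_an, anU_J, inner_J, inner_an]

theorem an_self {n : ℕ} (a : Fin n) (f : Fk n) : an a (an a f) = 0 := by
  ext s
  rw [an_apply, an_apply]
  simp

theorem cr_self {n : ℕ} (a : Fin n) (f : Fk n) : cr a (cr a f) = 0 := by
  ext s
  rw [cr_apply, cr_apply]
  simp

/-- the form `e ∧ f ∧ β + χ + e ∧ η₁ + f ∧ η₂` -/
noncomputable def asm (β χ η₁ η₂ : Fk N) : Fk (N + 2) :=
  cr 0 (cr 1 (J β)) + J χ + cr 0 (J η₁) + cr 1 (J η₂)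

theorem ne01 : (0 : Fin (N + 2)) ≠ 1 := by
  intro h
  have := congrArg Fin.val h
  simp at this

theorem ne0s (v : Fin N) : (0 : Fin (N + 2)) ≠ sc v := (Fin.succ_ne_zero _).symm

theorem ne1s (v : Fin N) : (1 : Fin (N + 2)) ≠ sc v := by
  intro h
  have h2 : (0 : Fin (N + 1)).succ = v.succ.succ := h
  exact Fin.succ_ne_zero _ (Fin.succ_injective _ h2).symm

theorem an_cr_ne {n : ℕ} {a b : Fin n} (h : a ≠ b) (f : Fk n) : an a (cr b f) = -cr b (an a f) := by
  rw [an_cr, if_neg h, zero_sub]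

theorem an_cr_eq {n : ℕ} (a : Fin n) (f : Fk n) : an a (cr a f) = f - cr a (an a f) := by
  rw [an_cr, if_pos rfl]

/-- every form is of this kind -/
theorem decomp (f : Fk (N + 2)) :
    f = asm (Jt (an 1 (an 0 f))) (Jt f) (Jt (an 0 f)) (Jt (an 1 f)) := by
  have hg : f = cr 0 (an 0 f) + an 0 (cr 0 f) := by rw [an_cr_eq]; abel
  -- the part with `0`
  have hk : an 0 f = cr 1 (J (Jt (an 1 (an 0 f)))) + J (Jt (an 0 f)) := by
    have h1 : J (Jt (an 1 (an 0 f))) = an 1 (an 0 f) := by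
      refine J_Jt ?_ (an_self _ _)
      rw [an_an, an_self, map_zero, neg_zero]
    have h2 : J (Jt (an 1 (cr 1 (an 0 f)))) = an 1 (cr 1 (an 0 f)) := by
      refine J_Jt ?_ (an_self _ _)
      rw [an_an, an_cr_ne ne01, an_self, map_zero, neg_zero, map_zero, neg_zero]
    have h3 : Jt (an 1 (cr 1 (an 0 f))) = Jt (an 0 f) := by
      rw [an_cr_eq, map_sub, Jt_cr1, sub_zero]
    rw [← h3, h2, h1, an_cr_eq]
    abel
  have hl : an 0 (cr 0 f) = cr 1 (J (Jt (an 1 f))) + J (Jt f) := by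
    have h1 : J (Jt (an 1 f)) = an 1 (an 0 (cr 0 f)) := by
      have e : Jt (an 1 f) = Jt (an 1 (an 0 (cr 0 f))) := by
        rw [an_cr_eq, map_sub, map_sub, an_cr_ne ne01.symm, map_neg, Jt_cr0]
        simp
      rw [e]
      refine J_Jt ?_ (an_self _ _)
      rw [an_an, an_self, map_zero, neg_zero]
    have h2 : J (Jt f) = an 1 (cr 1 (an 0 (cr 0 f))) := by
      have e : Jt f = Jt (an 1 (cr 1 (an 0 (cr 0 f)))) := by
        rw [an_cr_eq 1, map_sub, Jt_cr1, an_cr_eq, map_sub, Jt_cr0]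
        simp
      rw [e]
      refine J_Jt ?_ (an_self _ _)
      rw [an_an, an_cr_ne ne01, an_self, map_zero, neg_zero, map_zero, neg_zero]
    rw [h1, h2, an_cr_eq 1]
    abel
  conv_lhs => rw [hg, hl]
  conv_lhs => rw [hk]
  unfold asm
  rw [map_add]
  abel

section asm

variable (β χ η₁ η₂ β' χ' η₁' η₂' : Fk N)

theorem asm_add : asm β χ η₁ η₂ + asm β' χ' η₁' η₂' =
    asm (β + β') (χ + χ') (η₁ + η₁') (η₂ + η₂') := by
  unfold asm
  simp only [map_add]
  abel

theorem asm_neg : -asm β χ η₁ η₂ = asm (-β) (-χ) (-η₁) (-η₂) := by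
  unfold asm
  simp only [map_neg]
  abel

theorem asm_sub : asm β χ η₁ η₂ - asm β' χ' η₁' η₂' =
    asm (β - β') (χ - χ') (η₁ - η₁') (η₂ - η₂') := by
  unfold asm
  simp only [map_sub]
  abel

theorem asm_smul (r : ℝ) : r • asm β χ η₁ η₂ = asm (r • β) (r • χ) (r • η₁) (r • η₂) := by
  unfold asm
  simp only [map_smul, smul_add]

theorem an0_asm : an 0 (asm β χ η₁ η₂) = asm 0 η₁ 0 β := by
  unfold asm
  simp only [map_add, an_cr_eq, an_cr_ne ne01, an0_J, map_zero, neg_zero, sub_zero]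
  abel

theorem an1_asm : an 1 (asm β χ η₁ η₂) = asm 0 η₂ (-β) 0 := by
  unfold asm
  simp only [map_add, an_cr_eq, an_cr_ne ne01.symm, an1_J, map_zero, neg_zero, sub_zero, map_neg]
  abel

theorem cr0_asm : cr 0 (asm β χ η₁ η₂) = asm η₂ 0 χ 0 := by
  unfold asm
  simp only [map_add, cr_self, map_zero]
  abel

theorem cr1_asm : cr 1 (asm β χ η₁ η₂) = asm (-η₁) 0 0 χ := by
  unfold asm
  simp only [map_add, cr_self, map_zero, map_neg]
  rw [cr_cr 1 0 (cr 1 (J β)), cr_self, map_zero, neg_zero, cr_cr 1 0 (J η₁)]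
  abel

theorem anU_asm (v : Fin N) :
    an (sc v) (asm β χ η₁ η₂) = asm (an v β) (an v χ) (-an v η₁) (-an v η₂) := by
  unfold asm
  simp only [map_add, an_cr_ne (ne0s v).symm, an_cr_ne (ne1s v).symm, anU_J, map_neg, neg_neg]

theorem crU_asm (v : Fin N) :
    cr (sc v) (asm β χ η₁ η₂) = asm (cr v β) (cr v χ) (-cr v η₁) (-cr v η₂) := by
  unfold asm
  simp only [map_add, map_neg, ← crU_J]
  rw [cr_cr (sc v) 0 (cr 1 (J β)), cr_cr (sc v) 1 (J β), cr_cr (sc v) 0 (J η₁),
    cr_cr (sc v) 1 (J η₂), map_neg, neg_neg]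

theorem inner_asm : inner ℝ (asm β χ η₁ η₂) (asm β' χ' η₁' η₂') =
    inner ℝ β β' + inner ℝ χ χ' + inner ℝ η₁ η₁' + inner ℝ η₂ η₂' := by
  have h0 : ∀ (x : Fk N) (g : Fk (N + 2)), inner ℝ (J x) (cr 0 g) = 0 := fun x g => by
    rw [← inner_an, an0_J, inner_zero_left]
  have h1 : ∀ (x : Fk N) (g : Fk (N + 2)), inner ℝ (J x) (cr 1 g) = 0 := fun x g => by
    rw [← inner_an, an1_J, inner_zero_left]
  have h0' : ∀ (x : Fk N) (g : Fk (N + 2)), inner ℝ (cr 0 g) (J x) = 0 := fun x g => by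
    rw [real_inner_comm, h0]
  have h1' : ∀ (x : Fk N) (g : Fk (N + 2)), inner ℝ (cr 1 g) (J x) = 0 := fun x g => by
    rw [real_inner_comm, h1]
  unfold asm
  simp only [inner_add_left, inner_add_right, h0, h1, h0', h1', inner_J_J]
  simp only [inner_cr, an_cr_eq, an_cr_ne ne01, an_cr_ne (ne01 (N := N)).symm, an0_J, an1_J,
    map_zero, sub_zero, neg_zero, inner_neg_right, inner_J_J, h0, h1, h1', inner_zero_right]
  ring

end asm

end HopfPF
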