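import Pool.Agent.Lib.MP_4a593f_gt.PF.Emb
import Pool.Agent.Lib.MP_4a593f_gt.Big.K1

/-!
Plane functional, part 2: the curvature term against the even part, `T = T_UU + T_PU + T_X`.
-/

set_option autoImplicit false

open scoped BigOperators

namespace HopfPF

open HopfBig Finset

/-- `ρ(e_a ∧ e_b)` -/
noncomputable def rr {n : ℕ} (a b : Fin n) (f : Fk n) : Fk n := cr a (an b f) - cr b (an a f)

/-- the curvature term as a bilinear form -/
noncomputable def Wb {n : ℕ} (R : Fin n → Fin n → Fin n → Fin n → ℝ) (f g : Fk n) : ℝ :=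
  (1 / 4) * ∑ a, ∑ b, ∑ c, ∑ d, R a b c d * inner ℝ (rr a b f) (rr c d g)

variable {N : ℕ}

/-- the curvature tensor of `U` -/
def RU (R : Fin (N + 2) → Fin (N + 2) → Fin (N + 2) → Fin (N + 2) → ℝ)
    (i j k l : Fin N) : ℝ := R (sc i) (sc j) (sc k) (sc l)

/-- the first order conditions -/
structure FO (β χ η₁ η₂ : Fk N) : Prop where
  a : ∀ v, inner ℝ (cr v β) η₂ + inner ℝ (an v χ) η₁ = 0
  b : ∀ v, inner ℝ (cr v β) η₁ = inner ℝ (an v χ) η₂

/-- the part with both planes in `U` -/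
noncomputable def TUU (R : Fin (N + 2) → Fin (N + 2) → Fin (N + 2) → Fin (N + 2) → ℝ)
    (β χ : Fk N) : ℝ := Wb (RU R) β β + Wb (RU R) χ χ

/-- the part with both planes in `P ∧ U` -/
noncomputable def TPU (R : Fin (N + 2) → Fin (N + 2) → Fin (N + 2) → Fin (N + 2) → ℝ)
    (β χ : Fk N) : ℝ :=
  (∑ v : Fin N, ∑ w : Fin N, (R 0 (sc v) 0 (sc w) + R 1 (sc v) 1 (sc w)) *
      (inner ℝ (cr v β) (cr w β) + inner ℝ (an v χ) (an w χ)))
    + 2 * ∑ v : Fin N, ∑ w : Fin N, R 0 (sc v) 1 (sc w) *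
      (inner ℝ (cr v β) (an w χ) - inner ℝ (an v χ) (cr w β))

/-- the mixed part -/
noncomputable def TX (R : Fin (N + 2) → Fin (N + 2) → Fin (N + 2) → Fin (N + 2) → ℝ)
    (β χ η₁ η₂ : Fk N) : ℝ :=
  (∑ v : Fin N, ∑ c : Fin N, ∑ d : Fin N, R 1 (sc v) (sc c) (sc d) *
      (inner ℝ (an v η₁) (rr c d β) - inner ℝ (cr v η₂) (rr c d χ)))
    - ∑ v : Fin N, ∑ c : Fin N, ∑ d : Fin N, R 0 (sc v) (sc c) (sc d) *
      (inner ℝ (an v η₂) (rr c d β) + inner ℝ (cr v η₁) (rr c d χ))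

theorem rr_swap {n : ℕ} (a b : Fin n) (f : Fk n) : rr b a f = -rr a b f := by
  unfold rr
  abel

theorem rr_self {n : ℕ} (a : Fin n) (f : Fk n) : rr a a f = 0 := by
  unfold rr
  abel

theorem inner_rr {n : ℕ} (a b : Fin n) (f g : Fk n) :
    inner ℝ (rr a b f) g = -inner ℝ f (rr a b g) := by
  unfold rr
  rw [inner_sub_left, inner_sub_right, inner_cr, inner_cr, inner_an, inner_an]
  ring

theorem rr_an {n : ℕ} (v w u : Fin n) (f : Fk n) :
    rr v w (an u f) = an u (rr v w f) + ((if w = u then an v f else 0) -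
      (if v = u then an w f else 0)) := by
  unfold rr
  rw [map_sub, an_cr, an_cr, an_an w u, an_an v u]
  by_cases h1 : w = u
  · by_cases h2 : v = u
    · simp only [h1, h2, if_true, map_neg]
      abel
    · simp only [h1, h2, Ne.symm h2, if_true, if_false, map_neg]
      abel
  · by_cases h2 : v = u
    · simp only [h1, Ne.symm h1, h2, if_true, if_false, map_neg]
      abel
    · simp only [h1, h2, Ne.symm h1, Ne.symm h2, if_false, map_neg]
      abel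

theorem rr_cr {n : ℕ} (v w u : Fin n) (f : Fk n) :
    rr v w (cr u f) = cr u (rr v w f) + ((if w = u then cr v f else 0) -
      (if v = u then cr w f else 0)) := by
  unfold rr
  rw [map_sub, an_cr, an_cr, cr_cr u v, cr_cr u w]
  by_cases h1 : w = u
  · by_cases h2 : v = u
    · simp only [h1, h2, if_true, map_sub]
      abel
    · simp only [h1, h2, if_true, if_false, map_sub, map_zero]
      abel
  · by_cases h2 : v = u
    · simp only [h1, h2, if_true, if_false, map_sub, map_zero]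
      abel
    · simp only [h1, h2, if_false, map_sub, map_zero]
      abel

theorem sum_split {N : ℕ} (F : Fin (N + 2) → ℝ) : ∑ a, F a = F 0 + F 1 + ∑ v : Fin N, F (sc v) := by
  rw [Fin.sum_univ_succ, Fin.sum_univ_succ]
  have : (Fin.succ 0 : Fin (N + 2)) = 1 := rfl
  rw [this]
  ring

/-- symmetric sums -/
theorem sum_split2 {N : ℕ} (g : Fin (N + 2) → Fin (N + 2) → ℝ) (hs : ∀ a b, g b a = g a b)
    (h0 : ∀ a, g a a = 0) : ∑ a, ∑ b, g a b =
      2 * g 0 1 + 2 * ∑ v : Fin N, g 0 (sc v) + 2 * ∑ v : Fin N, g 1 (sc v)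
        + ∑ v : Fin N, ∑ w : Fin N, g (sc v) (sc w) := by
  rw [sum_split]
  simp only [sum_split]
  rw [Finset.sum_add_distrib, Finset.sum_add_distrib, h0, h0]
  have e1 : ∑ v : Fin N, g (sc v) 0 = ∑ v : Fin N, g 0 (sc v) := Finset.sum_congr rfl fun v _ => hs _ _
  have e2 : ∑ v : Fin N, g (sc v) 1 = ∑ v : Fin N, g 1 (sc v) := Finset.sum_congr rfl fun v _ => hs _ _
  rw [e1, e2, hs 0 1]
  ring

section comp

variable (β χ η₁ η₂ : Fk N)

theorem rr01_asm : rr 0 1 (asm β χ η₁ η₂) = asm 0 0 η₂ (-η₁) := by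
  unfold rr
  rw [an1_asm, an0_asm, cr0_asm, cr1_asm, asm_sub]
  simp

theorem rr0_asm (v : Fin N) :
    rr 0 (sc v) (asm β χ η₁ η₂) = asm (-an v η₂) (-cr v η₁) (an v χ) (cr v β) := by
  unfold rr
  rw [anU_asm, an0_asm, cr0_asm, crU_asm, asm_sub]
  simp

theorem rr1_asm (v : Fin N) :
    rr 1 (sc v) (asm β χ η₁ η₂) = asm (an v η₁) (-cr v η₂) (-cr v β) (an v χ) := by
  unfold rr
  rw [anU_asm, an1_asm, cr1_asm, crU_asm, asm_sub]
  simp

theorem rrU_asm (v w : Fin N) :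
    rr (sc v) (sc w) (asm β χ η₁ η₂) = asm (rr v w β) (rr v w χ) (rr v w η₁) (rr v w η₂) := by
  unfold rr
  rw [anU_asm, anU_asm, crU_asm, crU_asm, asm_sub]
  simp only [map_neg, neg_neg]

end comp

/-- the curvature term against the even part -/
theorem split {R : Fin (N + 2) → Fin (N + 2) → Fin (N + 2) → Fin (N + 2) → ℝ}
    (hR : IsCurvature R) {β χ η₁ η₂ : Fk N} (h : FO β χ η₁ η₂) :
    Wb R (asm β χ η₁ η₂) (asm β χ 0 0) = TUU R β χ + TPU R β χ + TX R β χ η₁ η₂ := by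
  have hp : ∀ a b c d, R c d a b = R a b c d := fun a b c d => pair_symm hR _ _ _ _
  have key : ∀ (Φ Ψ : Fin (N + 2) → Fin (N + 2) → Fk (N + 2)),
      (∀ a b, Φ b a = -Φ a b) → (∀ a, Φ a a = 0) → (∀ a b, Ψ b a = -Ψ a b) → (∀ a, Ψ a a = 0) →
      ∑ a, ∑ b, ∑ c, ∑ d, R a b c d * inner ℝ (Φ a b) (Ψ c d) =
        2 * (∑ c, ∑ d, R 0 1 c d * inner ℝ (Φ 0 1) (Ψ c d))
        + 2 * ∑ v : Fin N, (∑ c, ∑ d, R 0 (sc v) c d * inner ℝ (Φ 0 (sc v)) (Ψ c d))
        + 2 * ∑ v : Fin N, (∑ c, ∑ d, R 1 (sc v) c d * inner ℝ (Φ 1 (sc v)) (Ψ c d))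
        + ∑ v : Fin N, ∑ w : Fin N,
          (∑ c, ∑ d, R (sc v) (sc w) c d * inner ℝ (Φ (sc v) (sc w)) (Ψ c d)) := by
    intro Φ Ψ h1 h2 h3 h4
    refine sum_split2 (fun a b => ∑ c, ∑ d, R a b c d * inner ℝ (Φ a b) (Ψ c d)) ?_ ?_
    · intro a b
      refine Finset.sum_congr rfl fun c _ => Finset.sum_congr rfl fun d _ => ?_
      rw [hR.1 a b, h1 a b, inner_neg_left]
      ring
    · intro a
      refine Finset.sum_eq_zero fun c _ => Finset.sum_eq_zero fun d _ => ?_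
      rw [h2, inner_zero_left, mul_zero]
  have key2 : ∀ (a b : Fin (N + 2)) (x : Fk (N + 2)) (Ψ : Fin (N + 2) → Fin (N + 2) → Fk (N + 2)),
      (∀ a b, Ψ b a = -Ψ a b) → (∀ a, Ψ a a = 0) →
      ∑ c, ∑ d, R a b c d * inner ℝ x (Ψ c d) =
        2 * (R a b 0 1 * inner ℝ x (Ψ 0 1))
        + 2 * ∑ w : Fin N, (R a b 0 (sc w) * inner ℝ x (Ψ 0 (sc w)))
        + 2 * ∑ w : Fin N, (R a b 1 (sc w) * inner ℝ x (Ψ 1 (sc w)))
        + ∑ c : Fin N, ∑ d : Fin N, (R a b (sc c) (sc d) * inner ℝ x (Ψ (sc c) (sc d))) := by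
    intro a b x Ψ h3 h4
    refine sum_split2 (fun c d => R a b c d * inner ℝ x (Ψ c d)) ?_ ?_
    · intro c d
      rw [hR.2.1 a b c d, h3 c d, inner_neg_right]
      ring
    · intro c
      rw [h4, inner_zero_right, mul_zero]
  unfold Wb
  rw [key _ _ (fun a b => rr_swap _ _ _) (fun a => rr_self _ _) (fun a b => rr_swap _ _ _)
    (fun a => rr_self _ _)]
  simp only [key2 _ _ _ _ (fun a b => rr_swap a b (asm β χ 0 0)) (fun a => rr_self a (asm β χ 0 0))]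
  have rr0 : ∀ x y : Fin N, rr x y (0 : Fk N) = 0 := fun x y => by
    unfold rr
    simp only [map_zero, sub_zero]
  have f1 : ∀ v, inner ℝ η₂ (an v χ) + -inner ℝ η₁ (cr v β) = 0 := fun v => by
    rw [real_inner_comm (an v χ) η₂, real_inner_comm (cr v β) η₁, h.b v]
    ring
  have f2 : ∀ v, -inner ℝ η₂ (cr v β) + -inner ℝ η₁ (an v χ) = 0 := fun v => by
    rw [real_inner_comm (an v χ) η₁, real_inner_comm (cr v β) η₂]
    linarith [h.a v]
  simp only [rr01_asm, rr0_asm, rr1_asm, rrU_asm, inner_asm, neg_zero, map_zero, rr0, f1, f2,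
    inner_zero_left, inner_zero_right, inner_neg_left, inner_neg_right, add_zero, zero_add,
    mul_zero, Finset.sum_const_zero]
  simp only [Finset.sum_add_distrib, ← Finset.mul_sum]
  -- the two mixed parts agree
  have g1 : ∀ v, inner ℝ η₁ (an v χ) + inner ℝ η₂ (cr v β) = 0 := fun v => by
    have := f2 v
    linarith
  have g2 : ∀ v, inner ℝ η₁ (cr v β) = inner ℝ η₂ (an v χ) := fun v => by
    have := f1 v
    linarith
  have y0 : ∀ v w u : Fin N, inner ℝ (rr v w η₁) (an u χ) + inner ℝ (rr v w η₂) (cr u β)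
      = -inner ℝ (an u η₂) (rr v w β) + -inner ℝ (cr u η₁) (rr v w χ) := by
    intro v w u
    have a1 := g1 v
    have a2 := g1 w
    rw [inner_rr, inner_rr, rr_an, rr_cr, inner_add_right, inner_add_right, inner_sub_right,
      inner_sub_right, ← inner_cr, ← inner_an]
    split_ifs <;> (try simp only [inner_zero_right]) <;> linarith
  have y1 : ∀ v w u : Fin N, -inner ℝ (rr v w η₁) (cr u β) + inner ℝ (rr v w η₂) (an u χ)
      = inner ℝ (an u η₁) (rr v w β) + -inner ℝ (cr u η₂) (rr v w χ) := by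
    intro v w u
    have a1 := g2 v
    have a2 := g2 w
    rw [inner_rr, inner_rr, rr_an, rr_cr, inner_add_right, inner_add_right, inner_sub_right,
      inner_sub_right, ← inner_cr, ← inner_an]
    split_ifs <;> (try simp only [inner_zero_right]) <;> linarith
  have rot : ∀ G : Fin N → Fin N → Fin N → ℝ,
      ∑ v, ∑ w, ∑ u, G v w u = ∑ u, ∑ v, ∑ w, G v w u := by
    intro G
    calc ∑ v, ∑ w, ∑ u, G v w u = ∑ v, ∑ u, ∑ w, G v w u :=
          Finset.sum_congr rfl fun v _ => Finset.sum_comm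
      _ = ∑ u, ∑ v, ∑ w, G v w u := Finset.sum_comm
  have Y0 : ∑ x : Fin N, ∑ x_1 : Fin N, ∑ x_2 : Fin N, R (sc x) (sc x_1) 0 (sc x_2) *
      (inner ℝ (rr x x_1 η₁) (an x_2 χ) + inner ℝ (rr x x_1 η₂) (cr x_2 β)) =
      ∑ x : Fin N, ∑ x_1 : Fin N, ∑ x_2 : Fin N, R 0 (sc x) (sc x_1) (sc x_2) *
        (-inner ℝ (an x η₂) (rr x_1 x_2 β) + -inner ℝ (cr x η₁) (rr x_1 x_2 χ)) := by
    rw [rot]
    refine Finset.sum_congr rfl fun u _ => Finset.sum_congr rfl fun v _ =>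
      Finset.sum_congr rfl fun w _ => ?_
    rw [y0, hp 0 (sc u) (sc v) (sc w)]
  have Y1 : ∑ x : Fin N, ∑ x_1 : Fin N, ∑ x_2 : Fin N, R (sc x) (sc x_1) 1 (sc x_2) *
      (-inner ℝ (rr x x_1 η₁) (cr x_2 β) + inner ℝ (rr x x_1 η₂) (an x_2 χ)) =
      ∑ x : Fin N, ∑ x_1 : Fin N, ∑ x_2 : Fin N, R 1 (sc x) (sc x_1) (sc x_2) *
        (inner ℝ (an x η₁) (rr x_1 x_2 β) + -inner ℝ (cr x η₂) (rr x_1 x_2 χ)) := by
    rw [rot]
    refine Finset.sum_congr rfl fun u _ => Finset.sum_congr rfl fun v _ =>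
      Finset.sum_congr rfl fun w _ => ?_
    rw [y1, hp 1 (sc u) (sc v) (sc w)]
  have Z : ∑ x : Fin N, ∑ x_1 : Fin N, R 1 (sc x) 0 (sc x_1) *
      (-inner ℝ (cr x β) (an x_1 χ) + inner ℝ (an x χ) (cr x_1 β)) =
      ∑ x : Fin N, ∑ x_1 : Fin N, R 0 (sc x) 1 (sc x_1) *
        (-inner ℝ (an x χ) (cr x_1 β) + inner ℝ (cr x β) (an x_1 χ)) := by
    rw [Finset.sum_comm]
    refine Finset.sum_congr rfl fun v _ => Finset.sum_congr rfl fun w _ => ?_
    rw [hp 0 (sc v) 1 (sc w), real_inner_comm (an v χ) (cr w β), real_inner_comm (cr v β) (an w χ)]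
  rw [Y0, Y1, Z]
  unfold TUU TPU TX Wb RU
  have e1 : ∑ x : Fin N, ∑ x_1 : Fin N, ∑ x_2 : Fin N, ∑ x_3 : Fin N,
      R (sc x) (sc x_1) (sc x_2) (sc x_3) *
        (inner ℝ (rr x x_1 β) (rr x_2 x_3 β) + inner ℝ (rr x x_1 χ) (rr x_2 x_3 χ)) =
      (∑ a : Fin N, ∑ b : Fin N, ∑ c : Fin N, ∑ d : Fin N, R (sc a) (sc b) (sc c) (sc d) *
        inner ℝ (rr a b β) (rr c d β))
      + ∑ a : Fin N, ∑ b : Fin N, ∑ c : Fin N, ∑ d : Fin N, R (sc a) (sc b) (sc c) (sc d) *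
        inner ℝ (rr a b χ) (rr c d χ) := by
    simp only [← Finset.sum_add_distrib, ← mul_add]
  have e2 : ∑ v : Fin N, ∑ w : Fin N, (R 0 (sc v) 0 (sc w) + R 1 (sc v) 1 (sc w)) *
      (inner ℝ (cr v β) (cr w β) + inner ℝ (an v χ) (an w χ)) =
      (∑ x : Fin N, ∑ x_1 : Fin N, R 0 (sc x) 0 (sc x_1) *
        (inner ℝ (an x χ) (an x_1 χ) + inner ℝ (cr x β) (cr x_1 β)))
      + ∑ x : Fin N, ∑ x_1 : Fin N, R 1 (sc x) 1 (sc x_1) *
        (- -inner ℝ (cr x β) (cr x_1 β) + inner ℝ (an x χ) (an x_1 χ)) := by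
    simp only [← Finset.sum_add_distrib]
    refine Finset.sum_congr rfl fun v _ => Finset.sum_congr rfl fun w _ => ?_
    ring
  have e3 : ∑ v : Fin N, ∑ w : Fin N, R 0 (sc v) 1 (sc w) *
      (inner ℝ (cr v β) (an w χ) - inner ℝ (an v χ) (cr w β)) =
      ∑ x : Fin N, ∑ x_1 : Fin N, R 0 (sc x) 1 (sc x_1) *
        (-inner ℝ (an x χ) (cr x_1 β) + inner ℝ (cr x β) (an x_1 χ)) := by
    refine Finset.sum_congr rfl fun v _ => Finset.sum_congr rfl fun w _ => ?_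
    ring
  have e4 : ∑ v : Fin N, ∑ c : Fin N, ∑ d : Fin N, R 1 (sc v) (sc c) (sc d) *
      (inner ℝ (an v η₁) (rr c d β) - inner ℝ (cr v η₂) (rr c d χ)) =
      ∑ x : Fin N, ∑ x_1 : Fin N, ∑ x_2 : Fin N, R 1 (sc x) (sc x_1) (sc x_2) *
        (inner ℝ (an x η₁) (rr x_1 x_2 β) + -inner ℝ (cr x η₂) (rr x_1 x_2 χ)) := by
    refine Finset.sum_congr rfl fun v _ => Finset.sum_congr rfl fun w _ =>
      Finset.sum_congr rfl fun u _ => ?_
    ring
  have e5 : ∑ v : Fin N, ∑ c : Fin N, ∑ d : Fin N, R 0 (sc v) (sc c) (sc d) *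
      (inner ℝ (an v η₂) (rr c d β) + inner ℝ (cr v η₁) (rr c d χ)) =
      -∑ x : Fin N, ∑ x_1 : Fin N, ∑ x_2 : Fin N, R 0 (sc x) (sc x_1) (sc x_2) *
        (-inner ℝ (an x η₂) (rr x_1 x_2 β) + -inner ℝ (cr x η₁) (rr x_1 x_2 χ)) := by
    simp only [← Finset.sum_neg_distrib]
    refine Finset.sum_congr rfl fun v _ => Finset.sum_congr rfl fun w _ =>
      Finset.sum_congr rfl fun u _ => ?_
    ring
  rw [e1, e2, e3, e4, e5]
  ring

end HopfPF
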